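import Pool.Agent.N50.RP.Same

/-!
# Rank one perturbations of `μ I`: the prime factors of `μ` can be removed from the content
-/

set_option autoImplicit false

namespace Pool.Agent.N50.RP

open Matrix Pool.Agent.TH441.SSE2 Pool.Agent.R647.SS

/-- The canonical vector of content `c` and sum `t`. -/
def Rv (m : ℕ) (c t : ℤ) : Fin (m + 3) → ℤ := fun a => if a = 0 then t - (m + 2) * c else c

lemma Rv0 (m : ℕ) (c t : ℤ) : Rv m c t 0 = t - (m + 2) * c := by simp [Rv]

lemma Rvk {m : ℕ} (c t : ℤ) {a : Fin (m + 3)} (h : a ≠ 0) : Rv m c t a = c := by simp [Rv, h]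

lemma Rv_sum (m : ℕ) (c t : ℤ) : ∑ i, Rv m c t i = t := by
  rw [sum_off (k := 0) (g := c) (fun a ha => Rvk c t ha), Rv0]; ring

lemma Rv_adm {m : ℕ} {μ c t : ℤ} (hc : 1 ≤ c) (hμ : |μ| ≤ c) (hd : c ∣ t)
    (ht : (m + 3) * c ≤ t) :
    Adm μ (fun _ => 1) (Rv m c t) ∧ ∀ d, Cont (fun _ : Fin (m + 3) => (1 : ℤ)) (Rv m c t) d ↔
      d ∣ c := by
  have hall : ∀ a, c ∣ Rv m c t a := fun a => by
    by_cases ha : a = 0
    · rw [ha, Rv0]; exact dvd_sub hd (Dvd.intro_left _ rfl)
    · rw [Rvk c t ha]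
  have hcont : ∀ d, Cont (fun _ : Fin (m + 3) => (1 : ℤ)) (Rv m c t) d ↔ d ∣ c := by
    intro d
    rw [cont_one]
    constructor
    · intro h
      obtain ⟨a, ha, _⟩ := third (0 : Fin (m + 3)) 0
      have := h a
      rwa [Rvk c t ha] at this
    · intro h a
      exact h.trans (hall a)
  refine ⟨⟨fun _ => le_rfl, fun a => ?_, c, hμ, (hcont c).mpr dvd_rfl⟩, hcont⟩
  by_cases ha : a = 0
  · rw [ha, Rv0]; linarith
  · rw [Rvk c t ha]; exact hc

/-- Removing a factor of `μ` from the content. -/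
lemma down1 {m : ℕ} {μ p c t : ℤ} (hp : 1 ≤ p) (hpμ : p ∣ μ) (hc : 1 ≤ c) (hμ : |μ| ≤ c)
    (hd : c * p ∣ t) (ht : (m + 3) * (c * p) ≤ t) :
    Q (W μ (Rv m (c * p) t)) (W μ (Rv m c t)) := by
  obtain ⟨s, hs⟩ := hd
  have hcp : 1 ≤ c * p := by nlinarith
  have hs1 : (m + 3) ≤ s := by
    by_contra hcon
    push Not at hcon
    have : c * p * s < c * p * (m + 3) := mul_lt_mul_of_pos_left hcon (by linarith)
    linarith
  have hm0 : (0 : ℤ) ≤ m := Int.natCast_nonneg m
  set y0 := c * (s - (m + 2)) with hy0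
  have hy1 : 1 ≤ y0 := by
    rw [hy0]
    nlinarith
  let y : Fin (m + 3) → ℤ := fun a => if a = 0 then y0 else c
  let u1 : Fin (m + 3) → ℤ := fun a => if a = 0 then 1 else p
  let v1 : Fin (m + 3) → ℤ := fun a => if a = 0 then p * y0 else c
  obtain ⟨h1, h2⟩ := abs_le.mp hμ
  have hcy : c ≤ y0 := by rw [hy0]; nlinarith
  -- the state (u1, v1)
  have pu : ∀ a, 1 ≤ u1 a := fun a => by simp only [u1]; split_ifs <;> linarith
  have pv : ∀ a, 1 ≤ v1 a := fun a => by simp only [v1]; split_ifs <;> nlinarith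
  have pc : ∀ a, 0 ≤ μ + u1 a * v1 a := fun a => by
    simp only [u1, v1]; split_ifs <;> nlinarith
  have m1 := dmove hp hpμ pu pv pc (i := 0) (x := y0) (by simp [v1])
  have e1 : Function.update u1 0 (p * u1 0) = fun _ => p := by
    ext a
    by_cases ha : a = 0
    · rw [ha, Function.update_self]; simp [u1]
    · rw [Function.update_of_ne ha]; simp [u1, ha]
  have e2 : Function.update v1 0 y0 = y := by
    ext a
    by_cases ha : a = 0
    · rw [ha, Function.update_self]; simp [y]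
    · rw [Function.update_of_ne ha]; simp [y, v1, ha]
  have e3 : (fun i => p * y i) = Rv m (c * p) t := by
    ext a
    by_cases ha : a = 0
    · rw [ha, Rv0]; simp only [y, if_true]; rw [hy0, hs]; ring
    · rw [Rvk _ t ha]; simp only [y, if_neg ha]; ring
  rw [e1, e2, scale, e3] at m1
  -- the comparison of (u1, v1) with the canonical vector of content c
  have hct : c ∣ t := ⟨p * s, by rw [hs]; ring⟩
  have ht' : (m + 3) * c ≤ t := by
    have : (m + 3) * c ≤ (m + 3) * (c * p) := by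
      apply mul_le_mul_of_nonneg_left _ (by linarith)
      nlinarith
    linarith
  obtain ⟨r1, r2⟩ := Rv_adm (m := m) hc hμ hct ht'
  have hcont : ∀ d, Cont u1 v1 d ↔ d ∣ c := by
    intro d
    constructor
    · intro h
      obtain ⟨a, ha, _⟩ := third (0 : Fin (m + 3)) 0
      have := h 0 a
      simpa [u1, v1, ha] using this
    · intro h i j
      refine h.trans ?_
      simp only [v1]
      split_ifs
      · refine Dvd.dvd.mul_left ?_ _
        rw [hy0]
        exact ⟨p * (s - (m + 2)), by ring⟩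
      · exact Dvd.intro_left _ rfl
  have adm1 : Adm μ u1 v1 := ⟨pu, pv, c, hμ, (hcont c).mpr dvd_rfl⟩
  have hsum : ∑ i, u1 i * v1 i = ∑ i, (fun _ : Fin (m + 3) => (1 : ℤ)) i * Rv m c t i := by
    have e4 : ∑ i, (fun _ : Fin (m + 3) => (1 : ℤ)) i * Rv m c t i = t := by
      have := Rv_sum m c t
      simpa using this
    rw [e4, sum_off (w := fun i => u1 i * v1 i) (k := 0) (g := p * c) (fun a ha => by
      simp [u1, v1, ha])]
    simp only [u1, v1, if_true]
    rw [hy0, hs]; ring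
  have m2 := Q_of_same adm1 r1 hsum (fun d => (hcont d).trans (r2 d).symm)
  exact m1.symm.trans m2

/-- Removing many factors. -/
lemma downA {m : ℕ} {μ c t : ℤ} (hc : 1 ≤ c) (hμ : |μ| ≤ c) (ht0 : 0 < t) (a : ℕ) :
    (∀ q : ℕ, q.Prime → q ∣ a → (q : ℤ) ∣ μ) → c * a ∣ t → (m + 3) * (c * a) ≤ t →
    Q (W μ (Rv m (c * a) t)) (W μ (Rv m c t)) := by
  induction a using induction_on_primes with
  | zero =>
    intro _ h _
    exfalso
    rw [Nat.cast_zero, mul_zero, zero_dvd_iff] at h
    linarith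
  | one =>
    intro _ _ _
    rw [Nat.cast_one, mul_one]
    exact Q.refl _
  | prime_mul p a hp ih =>
    intro hq hd ht
    have hp1 : (1 : ℤ) ≤ p := by exact_mod_cast hp.one_lt.le
    have ha0 : a ≠ 0 := by
      rintro rfl
      rw [mul_zero, Nat.cast_zero, mul_zero, zero_dvd_iff] at hd
      linarith
    have ha1 : (1 : ℤ) ≤ a := by exact_mod_cast Nat.one_le_iff_ne_zero.mpr ha0
    have e : c * ((p * a : ℕ) : ℤ) = (c * a) * p := by push_cast; ring
    rw [e] at hd ht ⊢
    have hca : c ≤ c * a := by nlinarith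
    have hm0 : (0 : ℤ) ≤ m := Int.natCast_nonneg m
    have h1 := down1 (m := m) hp1 (hq p hp (Dvd.intro _ rfl)) (c := c * a) (by linarith)
      (by linarith) hd ht
    have h2 := ih (fun q hq1 hq2 => hq q hq1 (hq2.mul_left p)) (dvd_trans (Dvd.intro _ rfl) hd)
      (by
        have : (m + 3) * (c * a) ≤ (m + 3) * (c * a * p) := by
          apply mul_le_mul_of_nonneg_left _ (by linarith)
          nlinarith
        linarith)
    exact h1.trans h2

end Pool.Agent.N50.RP
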