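import Pool.Agent.N50.RP.Down

/-!
# Rank one perturbations of `μ I`: the classification
-/

set_option autoImplicit false

namespace Pool.Agent.N50.RP

open Matrix Pool.Agent.TH441.SSE2 Pool.Agent.R647.SS

lemma coprime_iff {c μ : ℤ} : IsCoprime c μ ↔ Nat.Coprime c.natAbs μ.natAbs := by
  rw [Int.isCoprime_iff_gcd_eq_one]
  rfl

/-- If prime to `μ` divisors of `G` and `H` coincide, then every prime factor of
`G / gcd (G, H)` divides `μ`. -/
lemma prime_dvd {G H a : ℕ} {μ : ℤ} (hG : 0 < G)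
    (h : ∀ c : ℕ, c.Coprime μ.natAbs → c ∣ G → c ∣ H) (ha : G = Nat.gcd G H * a) (q : ℕ)
    (hq : q.Prime) (hqa : q ∣ a) : (q : ℤ) ∣ μ := by
  by_contra hcon
  have hcop : Nat.Coprime q μ.natAbs := by
    rw [Nat.Prime.coprime_iff_not_dvd hq]
    intro h1
    exact hcon (Int.natCast_dvd.mpr h1)
  have : Fact q.Prime := ⟨hq⟩
  have h1 : q ^ padicValNat q G ∣ G := pow_padicValNat_dvd
  have h2 : q ^ padicValNat q G ∣ H := h _ (Nat.Coprime.pow_left _ hcop) h1
  have h3 : q ^ padicValNat q G ∣ Nat.gcd G H := Nat.dvd_gcd h1 h2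
  have h4 : q ^ (padicValNat q G + 1) ∣ G := by
    rw [pow_succ]
    conv_rhs => rw [ha]
    exact mul_dvd_mul h3 hqa
  exact pow_succ_padicValNat_not_dvd hG.ne' h4

theorem final {n m : ℕ} (hn : 3 ≤ n) (hm : 3 ≤ m) {μ : ℤ} (hμ : μ ≠ 0)
    {A : Matrix (Fin n) (Fin n) ℕ} {B : Matrix (Fin m) (Fin m) ℕ} (hA : RO μ A) (hB : RO μ B) :
    (SEZ (A.map (Nat.cast : ℕ → ℤ)) (B.map (Nat.cast : ℕ → ℤ)) →
      n = m ∧ A.trace = B.trace ∧
        ∀ c : ℕ, c.Coprime μ.natAbs → (c ∣ ct μ A ↔ c ∣ ct μ B)) ∧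
    ((μ.natAbs ≤ 2 ∨ μ.natAbs ≤ Nat.gcd (ct μ A) (ct μ B)) →
      n = m ∧ A.trace = B.trace ∧
        (∀ c : ℕ, c.Coprime μ.natAbs → (c ∣ ct μ A ↔ c ∣ ct μ B)) →
      Q (A.map (Nat.cast : ℕ → ℤ)) (B.map (Nat.cast : ℕ → ℤ))) := by
  obtain ⟨k, rfl⟩ : ∃ k, n = k + 3 := ⟨n - 3, by omega⟩
  obtain ⟨l, rfl⟩ : ∃ l, m = l + 3 := ⟨m - 3, by omega⟩
  obtain ⟨u, v, hu, hv, h⟩ := class_three hA.2.1 hA.2.2
  obtain ⟨u', v', hu', hv', h'⟩ := class_three hB.2.1 hB.2.2
  have eA := map_eq_M h
  have eB := map_eq_M h'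
  have tA : ((A.trace : ℕ) : ℤ) = (k + 3 : ℕ) * μ + dt u v := by
    rw [trace_cast, eA, trace_M]
  have tB : ((B.trace : ℕ) : ℤ) = (l + 3 : ℕ) * μ + dt u' v' := by
    rw [trace_cast, eB, trace_M]
  have cA : ∀ a, 0 ≤ μ + u a * v a := fun a => by
    have h1 := congrFun (congrFun eA a) a
    rw [Matrix.map_apply] at h1
    simp only [M, if_true] at h1
    rw [← h1]
    exact Int.natCast_nonneg _
  have cB : ∀ a, 0 ≤ μ + u' a * v' a := fun a => by
    have h1 := congrFun (congrFun eB a) a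
    rw [Matrix.map_apply] at h1
    simp only [M, if_true] at h1
    rw [← h1]
    exact Int.natCast_nonneg _
  constructor
  · intro hs
    rw [eA, eB] at hs
    obtain ⟨h1, h2⟩ := inv_all (by omega) hu hv cA hs
    have h3 : k + 3 = l + 3 := inv_size hμ (by rw [h1]) hs
    refine ⟨h3, ?_, fun c hc => ?_⟩
    · have h4 : k = l := by omega
      have h5 : (((k + 3 : ℕ) : ℤ)) = ((l + 3 : ℕ) : ℤ) := by exact_mod_cast h3
      have : ((A.trace : ℕ) : ℤ) = ((B.trace : ℕ) : ℤ) := by rw [tA, tB, h1, h5]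
      exact_mod_cast this
    · have h4 := h2 (c : ℤ) (coprime_iff.mpr (by rw [Int.natAbs_natCast]; exact hc))
      rw [cont_iff h, cont_iff h', Int.natAbs_natCast] at h4
      exact h4
  · rintro hL ⟨h1, h2, h3⟩
    have h4 : k = l := by omega
    subst h4
    have hd : dt u v = dt u' v' := by
      have : ((A.trace : ℕ) : ℤ) = ((B.trace : ℕ) : ℤ) := by rw [h2]
      rw [tA, tB] at this
      linarith
    have hcc : ∀ c : ℤ, IsCoprime c μ → (Cont u v c ↔ Cont u' v' c) := fun c hc => by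
      rw [cont_iff h, cont_iff h']
      exact h3 _ (coprime_iff.mp hc)
    rw [eA, eB]
    by_cases h2' : μ.natAbs = 2
    · have : μ = 2 ∨ μ = -2 := by omega
      exact two_same this hu hv cA hu' hv' cB hd hcc
    · -- the common content
      have hpos : ∀ {C : Matrix (Fin (k + 3)) (Fin (k + 3)) ℕ} {x y : Fin (k + 3) → ℤ},
          (∀ i, 1 ≤ x i) → (∀ i, 1 ≤ y i) → (∀ i j, Dv μ C i j = x i * y j) → 0 < ct μ C := by
        intro C x y hx hy hxy
        have h5 : Cont x y (ct μ C : ℤ) := (cont_iff hxy _).mpr (by rw [Int.natAbs_natCast])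
        rcases Nat.eq_zero_or_pos (ct μ C) with h6 | h6
        · exfalso
          have h7 := h5 0 0
          rw [h6, Nat.cast_zero, zero_dvd_iff] at h7
          have := mul_pos (show (0 : ℤ) < x 0 by linarith [hx 0])
            (show (0 : ℤ) < y 0 by linarith [hy 0])
          linarith
        · exact h6
      have pA := hpos hu hv h
      have pB := hpos hu' hv' h'
      set G := ct μ A with hG
      set H := ct μ B with hH
      have pc : 0 < Nat.gcd G H := Nat.gcd_pos_of_pos_left _ pA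
      have hμc : μ.natAbs ≤ Nat.gcd G H := by
        rcases hL with h5 | h5
        · have : μ.natAbs ≠ 0 := Int.natAbs_ne_zero.mpr hμ
          omega
        · exact h5
      set c : ℤ := ((Nat.gcd G H : ℕ) : ℤ) with hc
      have hc1 : 1 ≤ c := by rw [hc]; exact_mod_cast pc
      have hμ' : |μ| ≤ c := by
        rw [Int.abs_eq_natAbs, hc]
        exact_mod_cast hμc
      -- reduction of one matrix
      have red : ∀ {C : Matrix (Fin (k + 3)) (Fin (k + 3)) ℕ} {x y : Fin (k + 3) → ℤ} {a : ℕ},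
          (∀ i, 1 ≤ x i) → (∀ i, 1 ≤ y i) → (∀ i j, Dv μ C i j = x i * y j) →
          ct μ C = Nat.gcd G H * a → (∀ q : ℕ, q.Prime → q ∣ a → (q : ℤ) ∣ μ) →
          Q (M μ x y) (W μ (Rv k c (dt x y))) := by
        intro C x y a hx hy hxy ha hq
        have pC := hpos hx hy hxy
        have hcont : ∀ d, Cont x y d ↔ d ∣ c * a := fun d => by
          rw [cont_iff hxy, ha, ← Int.natAbs_dvd (a := d), hc]
          rw [show ((Nat.gcd G H : ℕ) : ℤ) * (a : ℤ) = ((Nat.gcd G H * a : ℕ) : ℤ) by push_cast; ring]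
          exact Int.natCast_dvd_natCast.symm
        have ha0 : a ≠ 0 := by
          rintro rfl
          rw [mul_zero] at ha
          omega
        have ha1 : (1 : ℤ) ≤ a := by exact_mod_cast Nat.one_le_iff_ne_zero.mpr ha0
        have hca : c ≤ c * a := by nlinarith
        have hdiv : c * a ∣ dt x y := Finset.dvd_sum fun i _ => (hcont _).mpr dvd_rfl i i
        have hle : (k + 3) * (c * a) ≤ dt x y := by
          have h5 : ∑ _i : Fin (k + 3), c * a ≤ dt x y := Finset.sum_le_sum fun i _ =>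
            le_of_dvd_pos ((hcont _).mpr dvd_rfl i i)
              (mul_pos (by linarith [hx i]) (by linarith [hy i]))
          rw [Finset.sum_const, Finset.card_univ, Fintype.card_fin, nsmul_eq_mul] at h5
          push_cast at h5
          exact h5
        have ht0 : 0 < dt x y := by
          have := dt_pos hx hy
          push_cast at this
          have : (0 : ℤ) ≤ k := Int.natCast_nonneg k
          linarith
        obtain ⟨r1, r2⟩ := Rv_adm (m := k) (μ := μ) (c := c * a) (by linarith) (by linarith)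
          hdiv hle
        have adm : Adm μ x y := ⟨hx, hy, c * a, by linarith, (hcont _).mpr dvd_rfl⟩
        have q1 : Q (M μ x y) (W μ (Rv k (c * a) (dt x y))) := by
          refine Q_of_same adm r1 ?_ (fun d => (hcont d).trans (r2 d).symm)
          have := Rv_sum k (c * a) (dt x y)
          simp only [one_mul]
          rw [this]
          rfl
        exact q1.trans (downA hc1 hμ' ht0 a hq hdiv hle)
      obtain ⟨a, ha⟩ := Nat.gcd_dvd_left G H
      obtain ⟨a', ha'⟩ := Nat.gcd_dvd_right G H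
      have q1 := red hu hv h ha (prime_dvd pA (fun c hc h5 => (h3 c hc).mp h5) ha)
      have q2 := red hu' hv' h' ha' (prime_dvd (H := G) pB (fun c hc h5 => (h3 c hc).mpr h5)
        (by rw [Nat.gcd_comm]; exact ha'))
      rw [← hd] at q2
      exact q1.trans q2.symm

end Pool.Agent.N50.RP
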