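import Pool.Agent.R647.SS.Pack

/-!
# Rank one perturbations of scalar matrices: moves for small content and moves which change the
# content
-/

set_option autoImplicit false

namespace Pool.Agent.N50.RP

open Matrix Pool.Agent.TH441.SSE2 Pool.Agent.R647.SS

/-- The move `(u, v) → (u - u_j e_i, v + v_i e_j)` under the exact conditions. -/
lemma emove {n : ℕ} {μ : ℤ} {u v : Fin n → ℤ} (hu : ∀ i, 1 ≤ u i) (hv : ∀ i, 1 ≤ v i)
    (hc : ∀ a, 0 ≤ μ + u a * v a) {i j : Fin n} (hij : i ≠ j) (hlt : u j < u i)
    (h1 : 0 ≤ μ + (u i - u j) * v i) (h2 : μ ≤ (u i - u j) * v j) :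
    Q (M μ u v) (M μ (Function.update u i (u i - u j)) (Function.update v j (v j + v i))) := by
  set u' := Function.update u i (u i - u j) with hu'
  set v' := Function.update v j (v j + v i) with hv'
  have hu'i : u' i = u i - u j := by rw [hu', Function.update_self]
  have hu'k : ∀ k, k ≠ i → u' k = u k := fun k hk => by rw [hu', Function.update_of_ne hk]
  have hv'j : v' j = v j + v i := by rw [hv', Function.update_self]
  have hv'k : ∀ k, k ≠ j → v' k = v k := fun k hk => by rw [hv', Function.update_of_ne hk]
  let R : Matrix (Fin n) (Fin n) ℤ := fun a b => (if a = b then 1 else 0) + (if a = i ∧ b = j then 1 else 0)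
  let S : Matrix (Fin n) (Fin n) ℤ := fun a b =>
    (if a = b then μ else 0) - (if a = i ∧ b = j then μ else 0) + u' a * v b
  refine Q.of_elem R S ?_ ?_ ?_ ?_
  · intro a b
    simp only [R]
    split_ifs <;> norm_num
  · intro a b
    simp only [S]
    by_cases hab : a = b
    · subst hab
      have h3 : ¬ (a = i ∧ a = j) := fun h => hij (h.1.symm.trans h.2)
      rw [if_pos rfl, if_neg h3]
      by_cases hai : a = i
      · subst hai
        rw [hu'i]
        linarith
      · rw [hu'k a hai]
        linarith [hc a]
    · rw [if_neg hab]
      by_cases h3 : a = i ∧ b = j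
      · rw [if_pos h3]
        obtain ⟨rfl, rfl⟩ := h3
        rw [hu'i]
        linarith
      · rw [if_neg h3]
        have h4 : 0 ≤ u' a * v b := by
          by_cases hai : a = i
          · subst hai
            rw [hu'i]
            exact mul_nonneg (by linarith) (by linarith [hv b])
          · rw [hu'k a hai]
            exact mul_nonneg (by linarith [hu a]) (by linarith [hv b])
        linarith
  · ext a b
    rw [Matrix.mul_apply]
    have e1 : ∀ x, R a x * S x b = (if a = x then S x b else 0) +
        (if x = j then (if a = i then S x b else 0) else 0) := by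
      intro x
      have e0 : R a x = (if a = x then 1 else 0) + (if x = j then (if a = i then 1 else 0) else 0) := by
        simp only [R]
        congr 1
        split_ifs with h1 h2 h3 <;> first | rfl | (exfalso; tauto)
      rw [e0, add_mul, ite_mul, ite_mul, ite_mul, one_mul, zero_mul]
    rw [Finset.sum_congr rfl (fun x _ => e1 x), Finset.sum_add_distrib, Finset.sum_ite_eq,
      if_pos (Finset.mem_univ a), Finset.sum_ite_eq', if_pos (Finset.mem_univ j)]
    simp only [M, S]
    have hji : j ≠ i := hij.symm
    by_cases h1 : a = i
    · subst h1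
      rw [hu'i, hu'k j hji]
      by_cases h2 : b = j
      · subst h2
        have h3 : ¬ (a = b) := hij
        simp [h3, hij.symm]
        ring
      · have h3 : ¬ (j = b) := fun h => h2 h.symm
        simp [h2, h3, hij.symm]
        ring
    · rw [hu'k a h1]
      simp [h1]
  · ext a b
    rw [Matrix.mul_apply]
    have e1 : ∀ x, S a x * R x b = (if x = b then S a x else 0) +
        (if x = i then (if b = j then S a x else 0) else 0) := by
      intro x
      have e0 : R x b = (if x = b then 1 else 0) + (if x = i then (if b = j then 1 else 0) else 0) := by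
        simp only [R]
        congr 1
        split_ifs with h1 h2 h3 <;> first | rfl | (exfalso; tauto)
      rw [e0, mul_add, mul_ite, mul_ite, mul_ite, mul_one, mul_zero]
    rw [Finset.sum_congr rfl (fun x _ => e1 x), Finset.sum_add_distrib, Finset.sum_ite_eq',
      if_pos (Finset.mem_univ b), Finset.sum_ite_eq', if_pos (Finset.mem_univ i)]
    simp only [M, S]
    by_cases h1 : b = j
    · subst h1
      rw [hv'j]
      by_cases h2 : a = i
      · subst h2
        simp [hij]
        ring
      · simp [h2]
        ring
    · rw [hv'k b h1]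
      simp [h1]

/-- The move which shifts a factor `p` of `μ` from `v_i` to `u_i`. -/
lemma dmove {n : ℕ} {μ p : ℤ} (hp : 1 ≤ p) (hpμ : p ∣ μ) {u v : Fin n → ℤ}
    (hu : ∀ i, 1 ≤ u i) (hv : ∀ i, 1 ≤ v i) (hc : ∀ a, 0 ≤ μ + u a * v a) {i : Fin n} {x : ℤ}
    (hx : v i = p * x) :
    Q (M μ u v) (M μ (Function.update u i (p * u i)) (Function.update v i x)) := by
  obtain ⟨q, rfl⟩ := hpμ
  have hx1 : 0 < x := by
    have := hv i
    rw [hx] at this
    by_contra hcon
    push Not at hcon
    nlinarith
  let T : Matrix (Fin n) (Fin n) ℤ := fun a b =>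
    if b = i then ((if a = i then q else 0) + u a * x) else M (p * q) u v a b
  let D : Matrix (Fin n) (Fin n) ℤ := Matrix.diagonal (fun a => if a = i then p else 1)
  refine Q.of_elem T D ?_ ?_ ?_ ?_
  · intro a b
    simp only [T]
    by_cases hb : b = i
    · rw [if_pos hb]
      by_cases ha : a = i
      · rw [if_pos ha]
        subst ha
        have h := hc a
        rw [hx] at h
        have h2 : p * q + u a * (p * x) = p * (q + u a * x) := by ring
        rw [h2] at h
        exact nonneg_of_mul_nonneg_right h (by linarith)
      · rw [if_neg ha, zero_add]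
        exact mul_nonneg (by linarith [hu a]) hx1.le
    · rw [if_neg hb]
      simp only [M]
      by_cases hab : a = b
      · subst hab
        rw [if_pos rfl]
        exact hc a
      · rw [if_neg hab, zero_add]
        exact mul_nonneg (by linarith [hu a]) (by linarith [hv b])
  · intro a b
    simp only [D, Matrix.diagonal_apply]
    split_ifs <;> linarith
  · ext a b
    simp only [D]
    rw [Matrix.mul_diagonal]
    by_cases hb : b = i
    · subst hb
      simp only [T, if_true, M]
      by_cases ha : a = b
      · simp only [ha, if_true]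
        rw [hx]; ring
      · simp only [ha, if_false]
        rw [hx]; ring
    · simp only [T, if_neg hb, mul_one]
  · ext a b
    simp only [D]
    rw [Matrix.diagonal_mul]
    by_cases ha : a = i
    · subst ha
      rw [if_pos rfl]
      by_cases hb : b = a
      · subst hb
        simp only [T, M, if_true, Function.update_self]
        ring
      · have hab : ¬ a = b := fun h => hb h.symm
        simp only [T, M, if_neg hb, if_neg hab, Function.update_self, Function.update_of_ne hb]
        ring
    · rw [if_neg ha, one_mul]
      by_cases hb : b = i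
      · subst hb
        simp only [T, M, if_true, if_neg ha, Function.update_self, Function.update_of_ne ha]
      · simp only [T, M, if_neg hb, Function.update_of_ne ha, Function.update_of_ne hb]

/-- Permutations. -/
lemma pmove {n : ℕ} {μ : ℤ} {u v : Fin n → ℤ} (hu : ∀ i, 1 ≤ u i) (hv : ∀ i, 1 ≤ v i)
    (hc : ∀ a, 0 ≤ μ + u a * v a) (σ : Equiv.Perm (Fin n)) :
    Q (M μ u v) (M μ (fun i => u (σ i)) (fun i => v (σ i))) := by
  have hNN : NN (M μ u v) := by
    intro a b
    simp only [M]
    by_cases hab : a = b
    · subst hab
      rw [if_pos rfl]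
      exact hc a
    · rw [if_neg hab, zero_add]
      exact mul_nonneg (by linarith [hu a]) (by linarith [hv b])
  refine Q.of_elem ((M μ u v).submatrix id σ) ((1 : Matrix (Fin n) (Fin n) ℤ).submatrix σ id)
    ?_ ?_ ?_ ?_
  · intro a b
    exact hNN _ _
  · intro a b
    simp only [Matrix.submatrix_apply, Matrix.one_apply]
    split_ifs <;> norm_num
  · rw [Matrix.submatrix_mul_equiv, Matrix.mul_one, Matrix.submatrix_id_id]
  · have h := Matrix.submatrix_mul_equiv (1 : Matrix (Fin n) (Fin n) ℤ) (M μ u v) σ
      (Equiv.refl _) σ
    have h2 : (1 : Matrix (Fin n) (Fin n) ℤ).submatrix σ id * (M μ u v).submatrix id σ =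
        (M μ u v).submatrix σ σ := by
      rw [Matrix.one_mul] at h
      exact h
    rw [h2]
    ext a b
    simp only [M, Matrix.submatrix_apply, EmbeddingLike.apply_eq_iff_eq]

lemma scale {n : ℕ} (μ a : ℤ) (v : Fin n → ℤ) :
    M μ (fun _ => a) v = M μ (fun _ => 1) (fun i => a * v i) := by
  ext i j
  simp only [M]
  ring

lemma sumf {n : ℕ} (f : ℤ → ℤ) (w : Fin n → ℤ) (a : Fin n) (x : ℤ) :
    ∑ k, f (Function.update w a x k) = ∑ k, f (w k) - f (w a) + f x := by
  have h1 := Finset.add_sum_erase Finset.univ (fun k => f (Function.update w a x k))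
    (Finset.mem_univ a)
  have h2 := Finset.add_sum_erase Finset.univ (fun k => f (w k)) (Finset.mem_univ a)
  have h : ∑ k ∈ Finset.univ.erase a, f (Function.update w a x k) =
      ∑ k ∈ Finset.univ.erase a, f (w k) := by
    refine Finset.sum_congr rfl fun k hk => ?_
    rw [Function.update_of_ne (Finset.ne_of_mem_erase hk)]
  rw [← h1, ← h2, h, Function.update_self]
  ring

end Pool.Agent.N50.RP
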