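import Pool.Agent.N50.RP.Two

/-!
# Rank one perturbations of scalar matrices: comparison of canonical forms
-/

set_option autoImplicit false

namespace Pool.Agent.N50.RP

open Matrix Pool.Agent.TH441.SSE2 Pool.Agent.R647.SS

lemma coprime_of_odd {μ c : ℤ} (hμ : μ = 2 ∨ μ = -2) (h : Odd c) : IsCoprime c μ := by
  obtain ⟨q, hq⟩ := h
  rcases hμ with rfl | rfl
  · exact ⟨1, -q, by rw [hq]; ring⟩
  · exact ⟨1, q, by rw [hq]; ring⟩

lemma sum_off {m : ℕ} {w : Fin (m + 3) → ℤ} {k : Fin (m + 3)} {g : ℤ}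
    (h : ∀ a, a ≠ k → w a = g) : ∑ i, w i = w k + (m + 2) * g := by
  rw [← Finset.add_sum_erase Finset.univ w (Finset.mem_univ k)]
  congr 1
  rw [Finset.sum_congr rfl (fun a ha => h a (Finset.ne_of_mem_erase ha)), Finset.sum_const,
    Finset.card_erase_of_mem (Finset.mem_univ k), Finset.card_univ, Fintype.card_fin,
    nsmul_eq_mul]
  push_cast
  ring

lemma swap_eq {m : ℕ} {w w' : Fin (m + 3) → ℤ} {k k' : Fin (m + 3)} {g : ℤ}
    (h : ∀ a, a ≠ k → w a = g) (h' : ∀ a, a ≠ k' → w' a = g) (hk : w k = w' k') :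
    w' = fun a => w (Equiv.swap k k' a) := by
  ext a
  by_cases h1 : a = k'
  · rw [h1, Equiv.swap_apply_right, hk]
  · by_cases h2 : a = k
    · rw [h2, Equiv.swap_apply_left]
      have h3 : k' ≠ k := fun h => h1 (h2.trans h.symm)
      rw [h k' h3, h' k h3.symm]
    · rw [Equiv.swap_apply_of_ne_of_ne h2 h1, h a h2, h' a h1]

theorem can_same {m : ℕ} {μ b : ℤ} (hb : (μ = 2 ∧ b = 1) ∨ (μ = -2 ∧ b = 2))
    {w w' : Fin (m + 3) → ℤ} (h : Val μ w) (h' : Val μ w') {k k' : Fin (m + 3)} {g g' : ℤ}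
    (c1 : Can b w k g) (c2 : Can b w' k' g') (hs : ∑ i, w i = ∑ i, w' i)
    (hc : ∀ c : ℤ, IsCoprime c μ → ((∀ a, c ∣ w a) ↔ ∀ a, c ∣ w' a)) :
    Q (W μ w) (W μ w') := by
  have hμ : μ = 2 ∨ μ = -2 := by
    rcases hb with ⟨h1, _⟩ | ⟨h1, _⟩
    · exact Or.inl h1
    · exact Or.inr h1
  obtain ⟨g1, g2⟩ := c1
  obtain ⟨g1', g2'⟩ := c2
  obtain ⟨a, ha, _⟩ := third k k
  obtain ⟨a', ha', _⟩ := third k' k'
  have pg : 1 ≤ g := by rw [← g1 a ha]; exact h.1 a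
  have pg' : 1 ≤ g' := by rw [← g1' a' ha']; exact h'.1 a'
  have hd : Odd g → g ∣ w k → g ∣ g' := fun h1 h2 => by
    have h3 := (hc g (coprime_of_odd hμ h1)).mp (fun x => by
      by_cases hx : x = k
      · rw [hx]; exact h2
      · rw [g1 x hx]) a'
    rwa [g1' a' ha'] at h3
  have hd' : Odd g' → g' ∣ w' k' → g' ∣ g := fun h1 h2 => by
    have h3 := (hc g' (coprime_of_odd hμ h1)).mpr (fun x => by
      by_cases hx : x = k'
      · rw [hx]; exact h2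
      · rw [g1' x hx]) a
    rwa [g1 a ha] at h3
  have hgg : g = g' := by
    rcases hb with ⟨rfl, rfl⟩ | ⟨rfl, rfl⟩
    · have t1 : Odd g ∧ g ∣ w k := by
        rcases g2 with h1 | h1
        · exact h1
        · rw [h1]; exact ⟨odd_one, one_dvd _⟩
      have t2 : Odd g' ∧ g' ∣ w' k' := by
        rcases g2' with h1 | h1
        · exact h1
        · rw [h1]; exact ⟨odd_one, one_dvd _⟩
      exact Int.dvd_antisymm (by linarith) (by linarith) (hd t1.1 t1.2) (hd' t2.1 t2.2)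
    · have q2 : 2 ≤ g := by rw [← g1 a ha]; linarith [h.2 a]
      have q2' : 2 ≤ g' := by rw [← g1' a' ha']; linarith [h'.2 a']
      rcases g2 with ⟨o1, o2⟩ | h1
      · rcases g2' with ⟨o1', o2'⟩ | h1'
        · exact Int.dvd_antisymm (by linarith) (by linarith) (hd o1 o2) (hd' o1' o2')
        · exfalso
          have h3 := hd o1 o2
          rw [h1'] at h3
          have h4 := Int.le_of_dvd (by norm_num) h3
          obtain ⟨y, hy⟩ := o1
          omega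
      · rcases g2' with ⟨o1', o2'⟩ | h1'
        · exfalso
          have h3 := hd' o1' o2'
          rw [h1] at h3
          have h4 := Int.le_of_dvd (by norm_num) h3
          obtain ⟨y, hy⟩ := o1'
          omega
        · rw [h1, h1']
  subst hgg
  have s1 := sum_off g1
  have s2 := sum_off g1'
  have hkk : w k = w' k' := by linarith
  rw [swap_eq g1 g1' hkk]
  exact pmove (u := fun _ => (1 : ℤ)) (fun _ => le_rfl) h.1 h.hc (Equiv.swap k k')

/-- Invariants along chains. -/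
lemma inv_all {n m : ℕ} {μ : ℤ} (hn : 2 ≤ n) {u v : Fin n → ℤ} {u' v' : Fin m → ℤ}
    (hu : ∀ i, 1 ≤ u i) (hv : ∀ i, 1 ≤ v i) (hc : ∀ a, 0 ≤ μ + u a * v a)
    (h : SEZ (M μ u v) (M μ u' v')) :
    dt u' v' = dt u v ∧ ∀ c : ℤ, IsCoprime c μ → (Cont u v c ↔ Cont u' v' c) := by
  have hn' : (2 : ℤ) ≤ n := by exact_mod_cast hn
  have h1 := dt_pos hu hv
  have h2 : 0 < μ + dt u v := by
    have e0 := Finset.add_sum_erase Finset.univ (fun i => u i * v i)
      (Finset.mem_univ (⟨0, by omega⟩ : Fin n))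
    have e1 : 0 < ∑ i ∈ Finset.univ.erase (⟨0, by omega⟩ : Fin n), u i * v i := by
      refine Finset.sum_pos (fun i _ => mul_pos (by linarith [hu i]) (by linarith [hv i]))
        ⟨⟨1, by omega⟩, ?_⟩
      rw [Finset.mem_erase]
      refine ⟨?_, Finset.mem_univ _⟩
      intro h
      have := congrArg Fin.val h
      simp at this
    have e2 := hc ⟨0, by omega⟩
    have e3 : dt u v = ∑ i, u i * v i := rfl
    rw [e3, ← e0]
    linarith
  have hd := inv_dom (μ := μ) (μ' := μ) ⟨⟨0, by omega⟩, by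
    have := hv ⟨0, by omega⟩
    intro h
    rw [h] at this
    linarith⟩ (by linarith) (by linarith) h
  refine ⟨by linarith, fun c hcop => ⟨fun h3 => inv_cont hd h h3 hcop,
    fun h3 => inv_cont hd.symm h.symm h3 hcop⟩⟩

lemma cont_one {n : ℕ} {w : Fin (n + 1) → ℤ} (c : ℤ) :
    Cont (fun _ : Fin (n + 1) => (1 : ℤ)) w c ↔ ∀ a, c ∣ w a := by
  constructor
  · intro h a
    have := h 0 a
    rwa [one_mul] at this
  · intro h i j
    rw [one_mul]
    exact h j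

lemma dt_one {n : ℕ} (w : Fin n → ℤ) : dt (fun _ => 1) w = ∑ i, w i := by
  simp [dt]

/-- The case `μ = ± 2`. -/
theorem two_same {m : ℕ} {μ : ℤ} (hμ : μ = 2 ∨ μ = -2) {u v u' v' : Fin (m + 3) → ℤ}
    (hu : ∀ i, 1 ≤ u i) (hv : ∀ i, 1 ≤ v i) (hc : ∀ a, 0 ≤ μ + u a * v a)
    (hu' : ∀ i, 1 ≤ u' i) (hv' : ∀ i, 1 ≤ v' i) (hc' : ∀ a, 0 ≤ μ + u' a * v' a)
    (hs : dt u v = dt u' v') (hcc : ∀ c : ℤ, IsCoprime c μ → (Cont u v c ↔ Cont u' v' c)) :
    Q (M μ u v) (M μ u' v') := by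
  obtain ⟨b, hb⟩ : ∃ b : ℤ, (μ = 2 ∧ b = 1) ∨ (μ = -2 ∧ b = 2) := by
    rcases hμ with h | h
    · exact ⟨1, Or.inl ⟨h, rfl⟩⟩
    · exact ⟨2, Or.inr ⟨h, rfl⟩⟩
  have red : ∀ {u v : Fin (m + 3) → ℤ}, (∀ i, 1 ≤ u i) → (∀ i, 1 ≤ v i) →
      (∀ a, 0 ≤ μ + u a * v a) → ∃ (w : Fin (m + 3) → ℤ) (k : Fin (m + 3)) (g : ℤ),
        Can b w k g ∧ Val μ w ∧ Q (M μ u v) (W μ w) ∧ ∑ i, w i = dt u v ∧
        ∀ c : ℤ, IsCoprime c μ → (Cont u v c ↔ ∀ a, c ∣ w a) := by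
    intro u v hu hv hc
    obtain ⟨w, h1, h2⟩ := stage1 (n := m + 2) hμ (∑ i, u i).toNat u v hu hv hc
      (Int.self_le_toNat _)
    obtain ⟨w', k, g, h3, h4, h5⟩ := reach hb (w 0).toNat w h1 ⟨0, Int.self_le_toNat _⟩
    have h6 := h2.trans h5
    obtain ⟨h7, h8⟩ := inv_all (by omega) hu hv hc (SEZ_of_Q h6)
    exact ⟨w', k, g, h3, h4, h6, by rw [← h7, dt_one], fun c hcop =>
      (h8 c hcop).trans (cont_one c)⟩
  obtain ⟨w, k, g, a1, a2, a3, a4, a5⟩ := red hu hv hc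
  obtain ⟨w', k', g', b1, b2, b3, b4, b5⟩ := red hu' hv' hc'
  exact (a3.trans (can_same hb a2 b2 a1 b1 (by rw [a4, b4, hs]) fun c hcop =>
    ((a5 c hcop).symm.trans (hcc c hcop)).trans (b5 c hcop))).trans b3.symm

end Pool.Agent.N50.RP
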