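import Pool.Agent.N50.RP.Vec

/-!
# Rank one perturbations of `± 2 I`: reduction to canonical forms
-/

set_option autoImplicit false

namespace Pool.Agent.N50.RP

open Matrix Pool.Agent.TH441.SSE2 Pool.Agent.R647.SS

lemma sumid {n : ℕ} (w : Fin n → ℤ) (a : Fin n) (x : ℤ) :
    ∑ k, Function.update w a x k = ∑ k, w k - w a + x := sumf (fun z => z) w a x

/-- The vector `u` can be reduced to the all one vector. -/
lemma stage1 {n : ℕ} {μ : ℤ} (hμ : μ = 2 ∨ μ = -2) (N : ℕ) : ∀ u v : Fin (n + 1) → ℤ,
    (∀ i, 1 ≤ u i) → (∀ i, 1 ≤ v i) → (∀ a, 0 ≤ μ + u a * v a) → ∑ i, u i ≤ N →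
    ∃ w : Fin (n + 1) → ℤ, Val μ w ∧ Q (M μ u v) (W μ w) := by
  have h2μ : (2 : ℤ) ∣ μ := by rcases hμ with rfl | rfl <;> norm_num
  induction N with
  | zero =>
    intro u v hu _ _ hs
    exfalso
    have h1 : u 0 ≤ ∑ i, u i :=
      Finset.single_le_sum (fun i _ => by linarith [hu i]) (Finset.mem_univ 0)
    have h2 := hu 0
    push_cast at hs
    linarith
  | succ N ih =>
    intro u v hu hv hc hs
    push_cast at hs
    have half : ∀ a y, u a = 2 * y →
        ∃ w : Fin (n + 1) → ℤ, Val μ w ∧ Q (M μ u v) (W μ w) := by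
      intro a y hy
      have hy1 : 1 ≤ y := by have := hu a; omega
      set u' := Function.update u a y with hu'
      set v' := Function.update v a (2 * v a) with hv'
      have u'a : u' a = y := by rw [hu', Function.update_self]
      have v'a : v' a = 2 * v a := by rw [hv', Function.update_self]
      have u'k : ∀ b, b ≠ a → u' b = u b := fun b hb => by rw [hu', Function.update_of_ne hb]
      have v'k : ∀ b, b ≠ a → v' b = v b := fun b hb => by rw [hv', Function.update_of_ne hb]
      have pu : ∀ b, 1 ≤ u' b := fun b => by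
        by_cases hb : b = a
        · rw [hb, u'a]; exact hy1
        · rw [u'k b hb]; exact hu b
      have pv : ∀ b, 1 ≤ v' b := fun b => by
        by_cases hb : b = a
        · rw [hb, v'a]; linarith [hv a]
        · rw [v'k b hb]; exact hv b
      have pc : ∀ b, 0 ≤ μ + u' b * v' b := fun b => by
        by_cases hb : b = a
        · rw [hb, u'a, v'a]
          have := hc a
          rw [hy] at this
          linarith
        · rw [u'k b hb, v'k b hb]; exact hc b
      have m := dmove (p := 2) (by norm_num) h2μ pu pv pc (i := a) (x := v a) v'a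
      have e1 : Function.update u' a (2 * u' a) = u := by
        rw [u'a, ← hy, hu', Function.update_idem, Function.update_eq_self]
      have e2 : Function.update v' a (v a) = v := by
        rw [hv', Function.update_idem, Function.update_eq_self]
      rw [e1, e2] at m
      obtain ⟨w, hw, q⟩ := ih u' v' pu pv pc (by rw [hu', sumid]; linarith)
      exact ⟨w, hw, m.symm.trans q⟩
    by_cases hex : ∃ i j, u j < u i
    · obtain ⟨i, j, hlt⟩ := hex
      have hij : i ≠ j := by rintro rfl; exact lt_irrefl _ hlt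
      by_cases hok : 0 ≤ μ + (u i - u j) * v i ∧ μ ≤ (u i - u j) * v j
      · have m := emove hu hv hc hij hlt hok.1 hok.2
        obtain ⟨w, hw, q⟩ := ih (Function.update u i (u i - u j))
          (Function.update v j (v j + v i)) (fun a => by
            by_cases ha : a = i
            · subst ha; rw [Function.update_self]; linarith
            · rw [Function.update_of_ne ha]; exact hu a) (fun a => by
            by_cases ha : a = j
            · subst ha; rw [Function.update_self]; linarith [hv a, hv i]
            · rw [Function.update_of_ne ha]; exact hv a) (fun a => by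
            by_cases ha : a = i
            · subst ha
              rw [Function.update_self, Function.update_of_ne hij]
              exact hok.1
            · rw [Function.update_of_ne ha]
              by_cases ha' : a = j
              · subst ha'
                rw [Function.update_self]
                have h1 := hc a
                have h2 := mul_pos (show (0 : ℤ) < u a by linarith [hu a])
                  (show (0 : ℤ) < v i by linarith [hv i])
                have h3 : u a * (v a + v i) = u a * v a + u a * v i := by ring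
                rw [h3]
                linarith
              · rw [Function.update_of_ne ha']; exact hc a)
          (by rw [sumid]; linarith [hu j])
        exact ⟨w, hw, m.trans q⟩
      · have h1 : u i = u j + 1 := by
          by_contra hne
          have h2 : 2 ≤ u i - u j := by omega
          apply hok
          rcases hμ with rfl | rfl
          · constructor <;> nlinarith [hv i, hv j]
          · constructor <;> nlinarith [hv i, hv j]
        rcases Int.even_or_odd' (u i) with ⟨y, hy | hy⟩
        · exact half i y hy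
        · exact half j y (by omega)
    · push Not at hex
      have e : u = fun _ => u 0 := funext fun i => le_antisymm (hex i 0) (hex 0 i)
      refine ⟨fun i => u 0 * v i, ⟨fun i => ?_, fun i => ?_⟩, ?_⟩
      · nlinarith [hu 0, hv i]
      · have h1 := hc i
        have h2 : u i = u 0 := le_antisymm (hex i 0) (hex 0 i)
        rw [h2] at h1
        exact h1
      · have h3 : M μ u v = W μ (fun i => u 0 * v i) := by
          rw [e, scale]
        rw [h3]
        exact Q.refl _

/-- Canonical forms. -/
def Can {n : ℕ} (b : ℤ) (w : Fin n → ℤ) (k : Fin n) (g : ℤ) : Prop :=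
  (∀ a, a ≠ k → w a = g) ∧ ((Odd g ∧ g ∣ w k) ∨ g = b)

lemma third {m : ℕ} (k i : Fin (m + 3)) : ∃ j, j ≠ k ∧ j ≠ i := by
  by_contra h
  push Not at h
  have h1 : (Finset.univ : Finset (Fin (m + 3))) ⊆ {k, i} := by
    intro a _
    rw [Finset.mem_insert, Finset.mem_singleton]
    by_cases ha : a = k
    · exact Or.inl ha
    · exact Or.inr (h a ha)
  have h2 := Finset.card_le_card h1
  have h3 := Finset.card_le_two (a := k) (b := i)
  rw [Finset.card_univ, Fintype.card_fin] at h2
  omega

/-- The effect of moving `y` units from `j` to `k`. -/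
lemma upd {n : ℕ} {μ : ℤ} {w : Fin n → ℤ} (h : Val μ w) {j k : Fin n} (hjk : j ≠ k) {x y : ℤ}
    (hxy : w j = x + y) (hy : 0 < y) (hkj : w j ≤ w k) (hx : 1 ≤ x) (hμx : 0 ≤ μ + x) :
    Val μ (Function.update (Function.update w j x) k (w k + y)) ∧
      ∑ i, (Function.update (Function.update w j x) k (w k + y)) i = ∑ i, w i ∧
      ∑ i, w i ^ 2 < ∑ i, (Function.update (Function.update w j x) k (w k + y)) i ^ 2 ∧
      ∀ B, (∃ a, w a ≤ B) →
        ∃ a, (Function.update (Function.update w j x) k (w k + y)) a ≤ B := by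
  have ek : (Function.update w j x) k = w k := by rw [Function.update_of_ne hjk.symm]
  have ej : (Function.update (Function.update w j x) k (w k + y)) j = x := by
    rw [Function.update_of_ne hjk, Function.update_self]
  refine ⟨⟨fun a => ?_, fun a => ?_⟩, ?_, ?_, ?_⟩
  · by_cases ha : a = k
    · rw [ha, Function.update_self]; linarith [h.1 k]
    · rw [Function.update_of_ne ha]
      by_cases ha' : a = j
      · rw [ha', Function.update_self]; exact hx
      · rw [Function.update_of_ne ha']; exact h.1 a
  · by_cases ha : a = k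
    · rw [ha, Function.update_self]; linarith [h.2 k]
    · rw [Function.update_of_ne ha]
      by_cases ha' : a = j
      · rw [ha', Function.update_self]; exact hμx
      · rw [Function.update_of_ne ha']; exact h.2 a
  · rw [sumid, sumid, ek]; linarith
  · have h1 := sumf (fun z => z ^ 2) (Function.update w j x) k (w k + y)
    have h2 := sumf (fun z => z ^ 2) w j x
    rw [h1, h2, ek, hxy]
    have h3 : 0 < y * (w k - x) := mul_pos hy (by linarith)
    nlinarith
  · rintro B ⟨a, ha⟩
    by_cases h1 : a = k
    · rw [h1] at ha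
      exact ⟨j, by rw [ej]; linarith⟩
    · by_cases h2 : a = j
      · rw [h2] at ha
        exact ⟨j, by rw [ej]; linarith⟩
      · exact ⟨a, by rw [Function.update_of_ne h1, Function.update_of_ne h2]; exact ha⟩

lemma hb_facts {μ b : ℤ} (hb : (μ = 2 ∧ b = 1) ∨ (μ = -2 ∧ b = 2)) :
    2 ∣ μ ∧ |μ| = 2 ∧ μ ≤ 2 ∧ -2 ≤ μ ∧ 1 ≤ b ∧ b ≤ 2 ∧ 0 ≤ μ + b := by
  rcases hb with ⟨rfl, rfl⟩ | ⟨rfl, rfl⟩ <;> norm_num

/-- The Euclidean step. -/
lemma euclid {m : ℕ} {μ b : ℤ} (hb : (μ = 2 ∧ b = 1) ∨ (μ = -2 ∧ b = 2))
    {w : Fin (m + 3) → ℤ} (h : Val μ w) {k : Fin (m + 3)} {g : ℤ}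
    (hg : ∀ a, a ≠ k → w a = g) (hodd : Odd g) (hg3 : 3 ≤ g) (hk : g < w k)
    (hnd : ¬ g ∣ w k) : ∃ w' : Fin (m + 3) → ℤ, Val μ w' ∧ Q (W μ w) (W μ w') ∧
      ∃ c, ∀ a, w' c < w a := by
  obtain ⟨h2μ, habs, hμ2, hμm, _, _, _⟩ := hb_facts hb
  obtain ⟨i, hik, _⟩ := third k k
  obtain ⟨j, hjk, hji⟩ := third k i
  let V : ℤ → Fin (m + 3) → ℤ := fun t a =>
    if a = k then w k - t * g else if a = j then g + t * g else w a
  have Vk : ∀ t, V t k = w k - t * g := fun t => by simp [V]
  have Vj : ∀ t, V t j = g + t * g := fun t => by simp [V, hjk]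
  have Vo : ∀ t a, a ≠ k → a ≠ j → V t a = g := fun t a h1 h2 => by
    simp only [V, if_neg h1, if_neg h2]; exact hg a h1
  have V0 : V 0 = w := by
    ext a
    by_cases h1 : a = k
    · rw [h1, Vk]; ring
    · by_cases h2 : a = j
      · rw [h2, Vj, hg j hjk]; ring
      · rw [Vo _ a h1 h2, hg a h1]
  have VV : ∀ t : ℤ, 0 ≤ t → 2 ≤ w k - t * g → Val μ (V t) := by
    intro t ht h1
    have h2 : 0 ≤ t * g := mul_nonneg ht (by linarith)
    constructor
    · intro a
      by_cases h3 : a = k
      · rw [h3, Vk]; linarith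
      · by_cases h4 : a = j
        · rw [h4, Vj]; linarith
        · rw [Vo _ a h3 h4]; linarith
    · intro a
      by_cases h3 : a = k
      · rw [h3, Vk]; linarith
      · by_cases h4 : a = j
        · rw [h4, Vj]; linarith
        · rw [Vo _ a h3 h4]; linarith
  have chain : ∀ t : ℕ, 2 ≤ w k - t * g → Q (W μ w) (W μ (V t)) := by
    intro t
    induction t with
    | zero =>
      intro _
      rw [Nat.cast_zero, V0]
      exact Q.refl _
    | succ t ih =>
      intro h1
      push_cast at h1
      have h1' : 2 + g ≤ w k - t * g := by linarith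
      have h2 := ih (by linarith)
      have h3 : (0 : ℤ) ≤ t := Int.natCast_nonneg t
      have h4 : 0 ≤ (t : ℤ) * g := mul_nonneg h3 (by linarith)
      have h5 := smove (VV t h3 (by linarith)) (i := i) (j := k) (k := j) hik hji.symm hjk.symm
        (by rw [habs, Vk, Vo _ i hik hji.symm]; linarith)
        (by rw [Vk, Vo _ i hik hji.symm]; linarith) (by rw [Vj]; linarith)
      rw [Vk, Vj, Vo _ i hik hji.symm] at h5
      have e : Function.update (Function.update (V t) k (w k - t * g - g)) j (g + t * g + g) =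
          V ((t : ℤ) + 1) := by
        ext a
        by_cases h6 : a = j
        · rw [h6, Function.update_self, Vj]; ring
        · rw [Function.update_of_ne h6]
          by_cases h7 : a = k
          · rw [h7, Function.update_self, Vk]; ring
          · rw [Function.update_of_ne h7, Vo _ a h7 h6, Vo _ a h7 h6]
      rw [e] at h5
      push_cast
      exact h2.trans h5
  have hdiv := Int.emod_add_mul_ediv (w k - 2) g
  have hs0 : 0 ≤ (w k - 2) % g := Int.emod_nonneg _ (by linarith)
  have hs1 : (w k - 2) % g < g := Int.emod_lt_of_pos _ (by linarith)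
  have hq0 : 0 ≤ (w k - 2) / g := Int.ediv_nonneg (by linarith) (by linarith)
  obtain ⟨T, hT⟩ := Int.eq_ofNat_of_zero_le hq0
  rw [hT] at hdiv
  have hT0 : (0 : ℤ) ≤ T := Int.natCast_nonneg T
  have hr : w k - T * g = (w k - 2) % g + 2 := by linarith
  have c1 := chain T (by rw [hr]; linarith)
  have v1 := VV T hT0 (by rw [hr]; linarith)
  rcases lt_trichotomy (w k - T * g) g with h1 | h1 | h1
  · refine ⟨V T, v1, c1, k, fun a => ?_⟩
    rw [Vk]
    by_cases ha : a = k
    · rw [ha]; linarith
    · rw [hg a ha]; exact h1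
  · exfalso
    apply hnd
    exact ⟨T + 1, by linarith⟩
  · obtain ⟨y, hy⟩ := hodd
    have h2 : w k - T * g = 2 * (y + 1) := by
      have : w k - T * g ≤ g + 1 := by rw [hr]; linarith
      omega
    have h3 := hmove h2μ v1 (i := k) (j := j) hjk.symm (x := y + 1) (by rw [Vk]; exact h2)
      (by omega) (by
        rw [Vj]
        have : 0 ≤ (T : ℤ) * g := mul_nonneg hT0 (by linarith)
        linarith)
    refine ⟨_, ⟨fun a => ?_, fun a => ?_⟩, c1.trans h3, k, fun a => ?_⟩
    · by_cases h6 : a = j
      · rw [h6, Function.update_self]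
        have := v1.1 j
        omega
      · rw [Function.update_of_ne h6]
        by_cases h7 : a = k
        · rw [h7, Function.update_self]; omega
        · rw [Function.update_of_ne h7]; exact v1.1 a
    · by_cases h6 : a = j
      · rw [h6, Function.update_self]
        have := v1.2 j
        omega
      · rw [Function.update_of_ne h6]
        by_cases h7 : a = k
        · rw [h7, Function.update_self]; omega
        · rw [Function.update_of_ne h7]; exact v1.2 a
    · rw [Function.update_of_ne hjk.symm, Function.update_self]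
      by_cases ha : a = k
      · rw [ha]; omega
      · rw [hg a ha]; omega

/-- One step of the reduction. -/
lemma step {m : ℕ} {μ b : ℤ} (hb : (μ = 2 ∧ b = 1) ∨ (μ = -2 ∧ b = 2))
    {w : Fin (m + 3) → ℤ} (h : Val μ w) {k : Fin (m + 3)} (hk : ∀ a, w a ≤ w k) :
    (∃ g, Can b w k g) ∨
    (∃ w' : Fin (m + 3) → ℤ, Val μ w' ∧ Q (W μ w) (W μ w') ∧ ∑ i, w' i = ∑ i, w i ∧
      ∑ i, w i ^ 2 < ∑ i, w' i ^ 2 ∧ ∀ B, (∃ a, w a ≤ B) → ∃ a, w' a ≤ B) ∨
    (∃ w' : Fin (m + 3) → ℤ, Val μ w' ∧ Q (W μ w) (W μ w') ∧ ∃ c, ∀ a, w' c < w a) := by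
  obtain ⟨h2μ, habs, hμ2, hμm, hb1, hb2, hμb⟩ := hb_facts hb
  have hwb : ∀ a, b ≤ w a := by
    intro a
    rcases hb with ⟨rfl, rfl⟩ | ⟨rfl, rfl⟩
    · exact h.1 a
    · linarith [h.2 a]
  have alt2 : ∀ {j : Fin (m + 3)} (x y : ℤ), j ≠ k → w j = x + y → 0 < y → 1 ≤ x → 0 ≤ μ + x →
      Q (W μ w) (W μ (Function.update (Function.update w j x) k (w k + y))) →
      ∃ w' : Fin (m + 3) → ℤ, Val μ w' ∧ Q (W μ w) (W μ w') ∧ ∑ i, w' i = ∑ i, w i ∧
      ∑ i, w i ^ 2 < ∑ i, w' i ^ 2 ∧ ∀ B, (∃ a, w a ≤ B) → ∃ a, w' a ≤ B := by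
    intro j x y hjk hxy hy hx hμx hQ
    obtain ⟨f1, f2, f3, f4⟩ := upd h hjk hxy hy (hk j) hx hμx
    exact ⟨_, f1, hQ, f2, f3, f4⟩
  by_cases hbase : ∃ i, i ≠ k ∧ w i = b
  · obtain ⟨i, hik, hi⟩ := hbase
    by_cases hall : ∀ a, a ≠ k → w a = b
    · exact Or.inl ⟨b, hall, Or.inr rfl⟩
    · push Not at hall
      obtain ⟨j, hjk, hj⟩ := hall
      have hij : i ≠ j := by rintro rfl; exact hj hi
      have hj1 : b + 1 ≤ w j := by
        have := hwb j
        omega
      right; left
      by_cases hj2 : b + 2 ≤ w j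
      · refine alt2 (w j - w i) (w i) hjk (by ring) (by linarith) (by rw [hi]; linarith)
          (by rw [hi]; linarith) ?_
        exact smove h hij hik hjk (by rw [habs, hi]; linarith) (by rw [hi]; linarith)
          (by linarith [hk j])
      · have hj3 : w j = b + 1 := by omega
        refine alt2 b 1 hjk hj3 one_pos hb1 hμb ?_
        rcases hb with ⟨rfl, rfl⟩ | ⟨rfl, rfl⟩
        · have := hmove (μ := 2) (by norm_num) h hjk (x := 1) (by rw [hj3]; norm_num)
            (by norm_num) (by linarith [hk j])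
          exact this
        · exact tmove h hij hik hjk hi (by rw [hj3]; norm_num) (by linarith [hk j])
  · push Not at hbase
    have hge : ∀ a, a ≠ k → b + 1 ≤ w a := fun a ha => by
      have h1 := hwb a
      have h2 := hbase a ha
      omega
    obtain ⟨i0, hi0, _⟩ := third k k
    have hk1 : b + 1 ≤ w k := le_trans (hge i0 hi0) (hk i0)
    by_cases hev : ∃ j, j ≠ k ∧ ∃ x, w j = 2 * x
    · obtain ⟨j, hjk, x, hx⟩ := hev
      have h1 := hge j hjk
      have hxb : b ≤ x := by omega
      right; left
      refine alt2 x x hjk (by rw [hx]; ring) (by linarith) (by linarith) (by linarith) ?_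
      exact hmove h2μ h hjk hx (by linarith) (by linarith)
    · push Not at hev
      have hodd : ∀ a, a ≠ k → Odd (w a) := fun a ha => by
        rcases Int.even_or_odd' (w a) with ⟨y, hy | hy⟩
        · exact absurd hy (hev a ha y)
        · exact ⟨y, hy⟩
      by_cases hne : ∃ i j, i ≠ k ∧ j ≠ k ∧ w i < w j
      · obtain ⟨i, j, hik, hjk, hlt⟩ := hne
        have hij : i ≠ j := by rintro rfl; exact lt_irrefl _ hlt
        obtain ⟨y, hy⟩ := hodd i hik
        obtain ⟨z, hz⟩ := hodd j hjk
        have h1 := hge i hik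
        right; left
        refine alt2 (w j - w i) (w i) hjk (by ring) (by linarith) (by linarith) (by omega) ?_
        exact smove h hij hik hjk (by rw [habs]; omega) hlt (by linarith)
      · push Not at hne
        have hg : ∀ a, a ≠ k → w a = w i0 := fun a ha =>
          le_antisymm (hne i0 a hi0 ha) (hne a i0 ha hi0)
        by_cases hd : w i0 ∣ w k
        · exact Or.inl ⟨w i0, hg, Or.inl ⟨hodd i0 hi0, hd⟩⟩
        · right; right
          have h1 := hge i0 hi0
          obtain ⟨y, hy⟩ := hodd i0 hi0
          have h2 : w i0 ≠ w k := fun he => hd (he ▸ dvd_rfl)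
          have h3 := hk i0
          exact euclid hb h hg (hodd i0 hi0) (by omega) (lt_of_le_of_ne h3 h2) hd

lemma sq_le {n : ℕ} {w : Fin n → ℤ} (h : ∀ i, 1 ≤ w i) : ∑ i, w i ^ 2 ≤ (∑ i, w i) ^ 2 := by
  rw [sq (∑ i, w i), Finset.sum_mul]
  refine Finset.sum_le_sum fun i _ => ?_
  rw [sq]
  have h1 : w i ≤ ∑ j, w j :=
    Finset.single_le_sum (fun j _ => by linarith [h j]) (Finset.mem_univ i)
  exact mul_le_mul_of_nonneg_left h1 (by linarith [h i])

/-- Every vector is linked to a canonical one. -/
theorem reach {m : ℕ} {μ b : ℤ} (hb : (μ = 2 ∧ b = 1) ∨ (μ = -2 ∧ b = 2)) (B : ℕ) :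
    ∀ w : Fin (m + 3) → ℤ, Val μ w → (∃ a, w a ≤ B) →
      ∃ (w' : Fin (m + 3) → ℤ) (k : Fin (m + 3)) (g : ℤ), Can b w' k g ∧ Val μ w' ∧
        Q (W μ w) (W μ w') := by
  induction B with
  | zero =>
    rintro w h ⟨a, ha⟩
    exfalso
    have := h.1 a
    push_cast at ha
    linarith
  | succ B ih =>
    have key : ∀ N : ℕ, ∀ w : Fin (m + 3) → ℤ, Val μ w → (∃ a, w a ≤ ((B + 1 : ℕ) : ℤ)) →
        (∑ i, w i) ^ 2 - ∑ i, w i ^ 2 < N →
        ∃ (w' : Fin (m + 3) → ℤ) (k : Fin (m + 3)) (g : ℤ), Can b w' k g ∧ Val μ w' ∧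
          Q (W μ w) (W μ w') := by
      intro N
      induction N with
      | zero =>
        intro w h _ h1
        exfalso
        have := sq_le h.1
        push_cast at h1
        linarith
      | succ N ihN =>
        intro w h hB h1
        push_cast at h1
        obtain ⟨k, hk⟩ := Finite.exists_max w
        rcases step hb h hk with ⟨g, hg⟩ | ⟨w', f1, f2, f3, f4, f5⟩ | ⟨w', f1, f2, c, hc⟩
        · exact ⟨w, k, g, hg, h, Q.refl _⟩
        · obtain ⟨w'', k', g', e1, e2, e3⟩ := ihN w' f1 (f5 _ hB) (by rw [f3]; linarith)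
          exact ⟨w'', k', g', e1, e2, f2.trans e3⟩
        · obtain ⟨a, ha⟩ := hB
          obtain ⟨w'', k', g', e1, e2, e3⟩ := ih w' f1 ⟨c, by
            have := hc a
            push_cast at ha
            linarith⟩
          exact ⟨w'', k', g', e1, e2, f2.trans e3⟩
    intro w h hB
    have h0 : 0 ≤ (∑ i, w i) ^ 2 - ∑ i, w i ^ 2 := by linarith [sq_le h.1]
    exact key ((∑ i, w i) ^ 2 - ∑ i, w i ^ 2 + 1).toNat w h hB (by
      rw [Int.toNat_of_nonneg (by linarith)]; linarith)

end Pool.Agent.N50.RP
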