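import Pool.Agent.N50.RP.Moves

/-!
# Rank one perturbations: moves of the vector `w` of `μ I + 1 wᵀ`
-/

set_option autoImplicit false

namespace Pool.Agent.N50.RP

open Matrix Pool.Agent.TH441.SSE2 Pool.Agent.R647.SS

/-- Valid vectors. -/
def Val {n : ℕ} (μ : ℤ) (w : Fin n → ℤ) : Prop := (∀ i, 1 ≤ w i) ∧ ∀ i, 0 ≤ μ + w i

/-- The matrix `μ I + 1 wᵀ`. -/
abbrev W {n : ℕ} (μ : ℤ) (w : Fin n → ℤ) : Matrix (Fin n) (Fin n) ℤ := M μ (fun _ => 1) w

lemma Val.hc {n : ℕ} {μ : ℤ} {w : Fin n → ℤ} (h : Val μ w) (a : Fin n) :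
    0 ≤ μ + (fun _ : Fin n => (1 : ℤ)) a * w a := by
  have := h.2 a
  simpa using this

/-- Shifting `w_i` units from `j` to `k`. -/
lemma smove {n : ℕ} {μ : ℤ} {w : Fin n → ℤ} (h : Val μ w) {i j k : Fin n} (hij : i ≠ j)
    (hik : i ≠ k) (hjk : j ≠ k) (h1 : |μ| ≤ w j - w i) (h0 : w i < w j) (h2 : μ ≤ w k) :
    Q (W μ w) (W μ (Function.update (Function.update w j (w j - w i)) k (w k + w i))) := by
  obtain ⟨hw, hc⟩ := h
  obtain ⟨h3, h4⟩ := abs_le.mp h1
  set u : Fin n → ℤ := Function.update (fun _ => 1) i 2 with hu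
  set v : Fin n → ℤ := Function.update w j (w j - w i) with hv
  have hui : u i = 2 := by rw [hu, Function.update_self]
  have huk : ∀ a, a ≠ i → u a = 1 := fun a ha => by rw [hu, Function.update_of_ne ha]
  have hvi : v i = w i := by rw [hv, Function.update_of_ne hij]
  have hvk : v k = w k := by rw [hv, Function.update_of_ne hjk.symm]
  have hvj : v j = w j - w i := by rw [hv, Function.update_self]
  have pu : ∀ a, 1 ≤ u a := fun a => by
    by_cases ha : a = i
    · rw [ha, hui]; norm_num
    · rw [huk a ha]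
  have pv : ∀ a, 1 ≤ v a := fun a => by
    by_cases ha : a = j
    · rw [ha, hvj]; linarith
    · rw [hv, Function.update_of_ne ha]; exact hw a
  have pc : ∀ a, 0 ≤ μ + u a * v a := fun a => by
    by_cases ha : a = i
    · rw [ha, hui, hvi]; linarith [hc i, hw i]
    · rw [huk a ha, one_mul]
      by_cases ha' : a = j
      · rw [ha', hvj]; linarith
      · rw [hv, Function.update_of_ne ha']; exact hc a
  have hu1 : ∀ a, a ≠ i → Function.update u i (u i - u a) = fun _ => 1 := by
    intro a ha
    ext b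
    by_cases hb : b = i
    · subst hb; rw [Function.update_self, hui, huk a ha]; norm_num
    · rw [Function.update_of_ne hb, huk b hb]
  have hlt1 : ∀ a, a ≠ i → u a < u i := fun a ha => by rw [hui, huk a ha]; norm_num
  have ev1 : Function.update v j (v j + v i) = w := by
    rw [hvj, hvi, hv, Function.update_idem]
    ext b
    by_cases hb : b = j
    · subst hb; rw [Function.update_self]; ring
    · rw [Function.update_of_ne hb]
  have ev2 : Function.update v k (v k + v i) = Function.update v k (w k + w i) := by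
    rw [hvk, hvi]
  have m1 := emove pu pv pc hij (hlt1 j hij.symm)
    (by rw [hui, huk j hij.symm, hvi]; linarith [hc i])
    (by rw [hui, huk j hij.symm, hvj]; linarith)
  have m2 := emove pu pv pc hik (hlt1 k hik.symm)
    (by rw [hui, huk k hik.symm, hvi]; linarith [hc i])
    (by rw [hui, huk k hik.symm, hvk]; linarith)
  rw [hu1 j hij.symm, ev1] at m1
  rw [hu1 k hik.symm, ev2] at m2
  exact m1.symm.trans m2

/-- Halving `w_i`. -/
lemma hmove {n : ℕ} {μ : ℤ} (hμ : 2 ∣ μ) {w : Fin n → ℤ} (h : Val μ w) {i j : Fin n}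
    (hij : i ≠ j) {x : ℤ} (hx : w i = 2 * x) (h1 : 0 ≤ μ + x) (h2 : μ ≤ w j) :
    Q (W μ w) (W μ (Function.update (Function.update w i x) j (w j + x))) := by
  have hx1 : 1 ≤ x := by have := h.1 i; omega
  have m0 := dmove (p := 2) (by norm_num) hμ (u := fun _ => (1 : ℤ)) (v := w)
    (fun _ => le_rfl) h.1 h.hc hx
  set u : Fin n → ℤ := Function.update (fun _ => 1) i (2 * 1) with hu
  set v : Fin n → ℤ := Function.update w i x with hv
  have hui : u i = 2 := by rw [hu, Function.update_self]; norm_num
  have huk : ∀ a, a ≠ i → u a = 1 := fun a ha => by rw [hu, Function.update_of_ne ha]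
  have hvi : v i = x := by rw [hv, Function.update_self]
  have hvk : ∀ a, a ≠ i → v a = w a := fun a ha => by rw [hv, Function.update_of_ne ha]
  have pu : ∀ a, 1 ≤ u a := fun a => by
    by_cases ha : a = i
    · rw [ha, hui]; norm_num
    · rw [huk a ha]
  have pv : ∀ a, 1 ≤ v a := fun a => by
    by_cases ha : a = i
    · rw [ha, hvi]; exact hx1
    · rw [hvk a ha]; exact h.1 a
  have pc : ∀ a, 0 ≤ μ + u a * v a := fun a => by
    by_cases ha : a = i
    · rw [ha, hui, hvi, ← hx]; exact h.2 i
    · rw [huk a ha, one_mul, hvk a ha]; exact h.2 a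
  have m1 := emove pu pv pc hij (by rw [hui, huk j hij.symm]; norm_num)
    (by rw [hui, huk j hij.symm, hvi]; linarith)
    (by rw [hui, huk j hij.symm, hvk j hij.symm]; linarith)
  have hu1 : Function.update u i (u i - u j) = fun _ => 1 := by
    ext b
    by_cases hb : b = i
    · subst hb; rw [Function.update_self, hui, huk j hij.symm]; norm_num
    · rw [Function.update_of_ne hb, huk b hb]
  rw [hu1, hvk j hij.symm, hvi] at m1
  exact m0.trans m1

/-- For `μ = -2`: moving one unit from an entry `3` to the entry `w_k`. -/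
lemma tmove {n : ℕ} {w : Fin n → ℤ} (h : Val (-2) w) {i j k : Fin n} (hij : i ≠ j)
    (hik : i ≠ k) (hjk : j ≠ k) (hi : w i = 2) (hj : w j = 3) (hk : 3 ≤ w k) :
    Q (W (-2) w) (W (-2) (Function.update (Function.update w j 2) k (w k + 1))) := by
  have hw2 : ∀ a, 2 ≤ w a := fun a => by have := h.2 a; linarith
  -- the vectors
  let A : ℤ → Fin n → ℤ := fun s => Function.update (fun _ => 1) i s
  let B : ℤ → ℤ → ℤ → Fin n → ℤ := fun x y z a =>
    if a = i then x else if a = j then y else if a = k then z else w a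
  have hAi : ∀ s, A s i = s := fun s => by simp [A]
  have hAk : ∀ s a, a ≠ i → A s a = 1 := fun s a ha => by simp [A, ha]
  have hBi : ∀ x y z, B x y z i = x := fun x y z => by simp [B]
  have hBj : ∀ x y z, B x y z j = y := fun x y z => by simp [B, hij.symm]
  have hBk : ∀ x y z, B x y z k = z := fun x y z => by simp [B, hik.symm, hjk.symm]
  have hBo : ∀ x y z a, a ≠ i → a ≠ j → a ≠ k → B x y z a = w a := fun x y z a h1 h2 h3 => by
    simp [B, h1, h2, h3]
  have hA1 : A 1 = fun _ => 1 := by
    ext a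
    by_cases ha : a = i
    · rw [ha, hAi]
    · rw [hAk _ a ha]
  have hB0 : B 2 3 (w k) = w := by
    ext a
    by_cases h1 : a = i
    · rw [h1, hBi, hi]
    · by_cases h2 : a = j
      · rw [h2, hBj, hj]
      · by_cases h3 : a = k
        · rw [h3, hBk]
        · rw [hBo _ _ _ a h1 h2 h3]
  have uA : ∀ s t, Function.update (A s) i t = A t := fun s t => by
    simp only [A, Function.update_idem]
  have uBi : ∀ x y z t, Function.update (B x y z) i t = B t y z := fun x y z t => by
    ext a
    by_cases h1 : a = i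
    · rw [h1, Function.update_self, hBi]
    · rw [Function.update_of_ne h1]; simp [B, h1]
  have uBj : ∀ x y z t, Function.update (B x y z) j t = B x t z := fun x y z t => by
    ext a
    by_cases h1 : a = j
    · rw [h1, Function.update_self, hBj]
    · rw [Function.update_of_ne h1]; simp [B, h1]
  have uBk : ∀ x y z t, Function.update (B x y z) k t = B x y t := fun x y z t => by
    ext a
    by_cases h1 : a = k
    · rw [h1, Function.update_self, hBk]
    · rw [Function.update_of_ne h1]; simp [B, h1]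
  have pA : ∀ s, 1 ≤ s → ∀ a, 1 ≤ A s a := fun s hs a => by
    by_cases ha : a = i
    · rw [ha, hAi]; exact hs
    · rw [hAk _ a ha]
  have pB : ∀ x y z, 1 ≤ x → 2 ≤ y → 2 ≤ z → ∀ a, 1 ≤ B x y z a := fun x y z h1 h2 h3 a => by
    simp only [B]
    split_ifs
    · exact h1
    · linarith
    · linarith
    · linarith [hw2 a]
  have pc : ∀ s x y z, 2 ≤ s * x → 2 ≤ y → 2 ≤ z → ∀ a, 0 ≤ -2 + A s a * B x y z a :=
      fun s x y z h1 h2 h3 a => by
    by_cases ha : a = i
    · rw [ha, hAi, hBi]; linarith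
    · rw [hAk _ a ha, one_mul]
      simp only [B]
      split_ifs
      · linarith
      · linarith
      · linarith [hw2 a]
  -- the chain
  have m1 : Q (M (-2) (A 1) (B 2 3 (w k))) (M (-2) (A 2) (B 1 3 (w k))) := by
    have := dmove (p := 2) (μ := -2) (by norm_num) (by norm_num) (pA 1 le_rfl)
      (pB 2 3 (w k) (by norm_num) (by norm_num) (by linarith))
      (pc 1 2 3 (w k) (by norm_num) (by norm_num) (by linarith)) (i := i) (x := 1)
      (by rw [hBi]; norm_num)
    rw [hAi, uA, uBi] at this
    exact this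
  have m2 : Q (M (-2) (A 3) (B 1 2 (w k))) (M (-2) (A 2) (B 1 3 (w k))) := by
    have := emove (μ := -2) (pA 3 (by norm_num)) (pB 1 2 (w k) le_rfl le_rfl (by linarith))
      (pc 3 1 2 (w k) (by norm_num) le_rfl (by linarith)) hij
      (by rw [hAi, hAk _ j hij.symm]; norm_num) (by rw [hAi, hAk _ j hij.symm, hBi]; norm_num)
      (by rw [hAi, hAk _ j hij.symm, hBj]; norm_num)
    rw [hAi, hAk _ j hij.symm, hBi, hBj, uA, uBj] at this
    norm_num at this
    exact this
  have m3 : Q (M (-2) (A 4) (B 1 2 (w k - 1))) (M (-2) (A 3) (B 1 2 (w k))) := by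
    have := emove (μ := -2) (pA 4 (by norm_num)) (pB 1 2 (w k - 1) le_rfl le_rfl (by linarith))
      (pc 4 1 2 (w k - 1) (by norm_num) le_rfl (by linarith)) hik
      (by rw [hAi, hAk _ k hik.symm]; norm_num) (by rw [hAi, hAk _ k hik.symm, hBi]; norm_num)
      (by rw [hAi, hAk _ k hik.symm, hBk]; linarith)
    rw [hAi, hAk _ k hik.symm, hBi, hBk, uA, uBk] at this
    norm_num at this
    exact this
  have m4 : Q (M (-2) (A 1) (B 4 2 (w k - 1))) (M (-2) (A 2) (B 2 2 (w k - 1))) := by
    have := dmove (p := 2) (μ := -2) (by norm_num) (by norm_num) (pA 1 le_rfl)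
      (pB 4 2 (w k - 1) (by norm_num) (by norm_num) (by linarith))
      (pc 1 4 2 (w k - 1) (by norm_num) (by norm_num) (by linarith)) (i := i) (x := 2)
      (by rw [hBi]; norm_num)
    rw [hAi, uA, uBi] at this
    exact this
  have m5 : Q (M (-2) (A 2) (B 2 2 (w k - 1))) (M (-2) (A 4) (B 1 2 (w k - 1))) := by
    have := dmove (p := 2) (μ := -2) (by norm_num) (by norm_num) (pA 2 (by norm_num))
      (pB 2 2 (w k - 1) (by norm_num) (by norm_num) (by linarith))
      (pc 2 2 2 (w k - 1) (by norm_num) (by norm_num) (by linarith)) (i := i) (x := 1)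
      (by rw [hBi]; norm_num)
    rw [hAi, uA, uBi] at this
    norm_num at this
    exact this
  have m6 : Q (W (-2) (B 4 2 (w k - 1))) (W (-2) (B 2 2 (w k + 1))) := by
    have hV : Val (-2) (B 4 2 (w k - 1)) := by
      refine ⟨pB 4 2 (w k - 1) (by norm_num) le_rfl (by linarith), fun a => ?_⟩
      have h1 := pc 1 4 2 (w k - 1) (by norm_num) le_rfl (by linarith) a
      rw [hA1] at h1
      simpa using h1
    have := smove hV (i := j) (j := i) (k := k) hij.symm hjk hik
      (by rw [hBi, hBj]; norm_num) (by rw [hBi, hBj]; norm_num) (by rw [hBk]; linarith)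
    rw [hBi, hBj, hBk, uBi, uBk] at this
    have e1 : (4 : ℤ) - 2 = 2 := by norm_num
    have e2 : w k - 1 + 2 = w k + 1 := by ring
    rw [e1, e2] at this
    exact this
  have e3 : Function.update (Function.update w j 2) k (w k + 1) = B 2 2 (w k + 1) := by
    rw [← hB0, uBj, hBk, uBk]
  rw [e3]
  have m7 := (((m1.trans m2.symm).trans m3.symm).trans m5.symm).trans m4.symm
  rw [hA1, hB0] at m7
  exact m7.trans m6

end Pool.Agent.N50.RP
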